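import Pool.Agent.Helper49.NF.Goals

/-!
# Project NF, packet N1C (numerical facts)
-/

set_option autoImplicit false

namespace Pool.Agent.Helper41.NF

open Finset

/-- `1000 K² m⁵ ≤ n`. -/
lemma main_bound {n m K : ℕ} (hn : 1000 ^ 20 ≤ n) (hm : m ^ 20 ≤ n) (hK1 : 1 ≤ K)
    (hK : K ^ 100 ≤ n) : 1000 * K ^ 2 * m ^ 5 ≤ n := by
  have hn1 : 1 ≤ n := le_trans (Nat.one_le_pow _ _ (by norm_num)) hn
  have h1 : (1000 * K ^ 2 * m ^ 5) ^ 20 ≤ n ^ 20 := by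
    calc (1000 * K ^ 2 * m ^ 5) ^ 20 = 1000 ^ 20 * K ^ 40 * (m ^ 20) ^ 5 := by ring
      _ ≤ n * n * n ^ 5 := by
          refine Nat.mul_le_mul (Nat.mul_le_mul hn ?_) (Nat.pow_le_pow_left hm 5)
          exact le_trans (Nat.pow_le_pow_right hK1 (by norm_num)) hK
      _ = n ^ 7 := by ring
      _ ≤ n ^ 20 := Nat.pow_le_pow_right hn1 (by norm_num)
  exact le_of_not_gt fun h => absurd (Nat.pow_lt_pow_left h (by norm_num)) (not_lt.mpr h1)

/-- recursion for binomial coefficients in the reals -/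
lemma choose_rec (a j : ℕ) (h : j ≤ a) :
    (a.choose (j + 1) : ℝ) * (j + 1) = a.choose j * ((a : ℝ) - j) := by
  have h1 := Nat.choose_succ_right_eq a j
  have h2 : ((a - j : ℕ) : ℝ) = (a : ℝ) - j := Nat.cast_sub h
  rw [← h2]
  exact_mod_cast h1

/-- Bernoulli, with the first factor kept exactly. -/
lemma bern {n m t : ℕ} (htm : t + m ≤ n) (j : ℕ) (hj1 : 1 ≤ j) (hjm : j ≤ m) :
    (n.choose j : ℝ) * (((n : ℝ) - t) * ((n : ℝ) - m - ((j : ℝ) - 1) * t)) ≤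
      ((n - t).choose j : ℝ) * ((n : ℝ) * ((n : ℝ) - m)) := by
  have htmR : (t : ℝ) + m ≤ n := by exact_mod_cast htm
  have ht0 : (0 : ℝ) ≤ t := Nat.cast_nonneg t
  have hm0 : (0 : ℝ) ≤ m := Nat.cast_nonneg m
  have hntc : ((n - t : ℕ) : ℝ) = (n : ℝ) - t := Nat.cast_sub (by omega)
  induction j, hj1 using Nat.le_induction with
  | base =>
    simp only [Nat.choose_one_right, Nat.cast_one, sub_self, zero_mul, sub_zero]
    rw [hntc]
    apply le_of_eq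
    ring
  | succ j hj ih =>
    have ih' := ih (by omega)
    have hjmR : (j : ℝ) + 1 ≤ m := by exact_mod_cast hjm
    have hj1R : (1 : ℝ) ≤ j := by exact_mod_cast hj
    have e1 := choose_rec n j (by omega)
    have e2 := choose_rec (n - t) j (by omega)
    rw [hntc] at e2
    have hjp : (0 : ℝ) < (j : ℝ) + 1 := by linarith
    have hb0 : (0 : ℝ) ≤ n.choose j := Nat.cast_nonneg _
    rw [Nat.cast_add, Nat.cast_one]
    refine le_of_mul_le_mul_right ?_ hjp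
    have hs : (0 : ℝ) ≤ (n : ℝ) - t - j := by linarith
    have hnt : (0 : ℝ) ≤ (n : ℝ) - t := by linarith
    calc (n.choose (j + 1) : ℝ) * (((n : ℝ) - t) * ((n : ℝ) - m - ((j : ℝ) + 1 - 1) * t)) * ((j : ℝ) + 1)
        = ((n.choose (j + 1) : ℝ) * ((j : ℝ) + 1)) *
            (((n : ℝ) - t) * ((n : ℝ) - m - (j : ℝ) * t)) := by ring
      _ = (n.choose j : ℝ) * ((n : ℝ) - t) *
            (((n : ℝ) - j) * ((n : ℝ) - m - (j : ℝ) * t)) := by rw [e1]; ring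
      _ ≤ (n.choose j : ℝ) * ((n : ℝ) - t) *
            (((n : ℝ) - m - ((j : ℝ) - 1) * t) * ((n : ℝ) - t - j)) := by
          refine mul_le_mul_of_nonneg_left ?_ (mul_nonneg hb0 hnt)
          have key : 0 ≤ (t : ℝ) * (((n : ℝ) - j) - ((n : ℝ) - m - ((j : ℝ) - 1) * t)) := by
            refine mul_nonneg ht0 ?_
            have : 0 ≤ ((j : ℝ) - 1) * t := mul_nonneg (by linarith) ht0
            linarith
          nlinarith [key]
      _ = ((n.choose j : ℝ) * (((n : ℝ) - t) * ((n : ℝ) - m - ((j : ℝ) - 1) * t))) *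
            ((n : ℝ) - t - j) := by ring
      _ ≤ (((n - t).choose j : ℝ) * ((n : ℝ) * ((n : ℝ) - m))) * ((n : ℝ) - t - j) :=
          mul_le_mul_of_nonneg_right ih' hs
      _ = ((n - t).choose j * ((n : ℝ) - t - j)) * ((n : ℝ) * ((n : ℝ) - m)) := by ring
      _ = (((n - t).choose (j + 1) : ℝ) * ((j : ℝ) + 1)) * ((n : ℝ) * ((n : ℝ) - m)) := by
          rw [e2]
      _ = ((n - t).choose (j + 1) : ℝ) * ((n : ℝ) * ((n : ℝ) - m)) * ((j : ℝ) + 1) := by ring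

/-- the second claim -/
lemma choose_shift {n m : ℕ} (hm : 1 ≤ m) (hn : 4 * m ^ 2 ≤ n) :
    3 * n.choose m ≤ 4 * (n - n / (4 * m)).choose m := by
  set t := n / (4 * m) with ht
  have ht4 : 4 * m * t ≤ n := Nat.mul_div_le n (4 * m)
  have hmm : m ≤ m ^ 2 := by nlinarith
  have htn : 4 * t ≤ n := le_trans (by nlinarith) ht4
  have h4m : 4 * m ≤ n := by omega
  have htm : t + m ≤ n := by omega
  have hb := bern htm m hm le_rfl
  have ht4R : 4 * (m : ℝ) * t ≤ n := by exact_mod_cast ht4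
  have hnR : 4 * (m : ℝ) ^ 2 ≤ n := by exact_mod_cast hn
  have hmR : (1 : ℝ) ≤ m := by exact_mod_cast hm
  have h4mR : 4 * (m : ℝ) ≤ n := by exact_mod_cast h4m
  have hn0 : (0 : ℝ) < n := by linarith
  have hnm0 : (0 : ℝ) < (n : ℝ) - m := by linarith
  have hb0 : (0 : ℝ) ≤ n.choose m := Nat.cast_nonneg _
  have h1 : (4 * (m : ℝ) - 1) * n ≤ 4 * m * ((n : ℝ) - t) := by nlinarith
  have h2 : 4 * (m : ℝ) * ((n : ℝ) - m) - ((m : ℝ) - 1) * n ≤
      4 * m * ((n : ℝ) - m - ((m : ℝ) - 1) * t) := by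
    have : ((m : ℝ) - 1) * (4 * m * t) ≤ ((m : ℝ) - 1) * n :=
      mul_le_mul_of_nonneg_left ht4R (by linarith)
    nlinarith [this]
  have h3 : (0 : ℝ) ≤ 4 * (m : ℝ) * ((n : ℝ) - m) - ((m : ℝ) - 1) * n := by
    nlinarith [mul_nonneg (by linarith : (0 : ℝ) ≤ m) hn0.le]
  have h4 : (0 : ℝ) ≤ (4 * (m : ℝ) - 1) * n := mul_nonneg (by linarith) hn0.le
  have h5 := mul_le_mul h1 h2 h3 (le_trans h4 h1)
  have h6 : 12 * (m : ℝ) ^ 2 * (n * ((n : ℝ) - m)) ≤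
      ((4 * (m : ℝ) - 1) * n) * (4 * (m : ℝ) * ((n : ℝ) - m) - ((m : ℝ) - 1) * n) := by
    have e : ((4 * (m : ℝ) - 1) * n) * (4 * (m : ℝ) * ((n : ℝ) - m) - ((m : ℝ) - 1) * n) -
        12 * (m : ℝ) ^ 2 * (n * ((n : ℝ) - m)) =
        n * (((m : ℝ) - 1) * ((n : ℝ) - 4 * (m : ℝ) ^ 2)) := by ring
    have e2 : (0 : ℝ) ≤ n * (((m : ℝ) - 1) * ((n : ℝ) - 4 * (m : ℝ) ^ 2)) :=
      mul_nonneg hn0.le (mul_nonneg (by linarith) (by linarith))
    linarith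
  have h7 : 3 * (n * ((n : ℝ) - m)) ≤
      4 * (((n : ℝ) - t) * ((n : ℝ) - m - ((m : ℝ) - 1) * t)) := by
    have hm2 : (0 : ℝ) < 4 * (m : ℝ) ^ 2 := by positivity
    refine le_of_mul_le_mul_left ?_ hm2
    calc 4 * (m : ℝ) ^ 2 * (3 * (n * ((n : ℝ) - m)))
        = 12 * (m : ℝ) ^ 2 * (n * ((n : ℝ) - m)) := by ring
      _ ≤ _ := h6
      _ ≤ _ := h5
      _ = _ := by ring
  have h8 : 3 * (n.choose m : ℝ) ≤ 4 * ((n - t).choose m : ℝ) := by
    have hpos : (0 : ℝ) < n * ((n : ℝ) - m) := mul_pos hn0 hnm0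
    refine le_of_mul_le_mul_right ?_ hpos
    calc 3 * (n.choose m : ℝ) * (n * ((n : ℝ) - m))
        = (n.choose m : ℝ) * (3 * (n * ((n : ℝ) - m))) := by ring
      _ ≤ (n.choose m : ℝ) * (4 * (((n : ℝ) - t) * ((n : ℝ) - m - ((m : ℝ) - 1) * t))) :=
          mul_le_mul_of_nonneg_left h7 hb0
      _ = 4 * ((n.choose m : ℝ) * (((n : ℝ) - t) * ((n : ℝ) - m - ((m : ℝ) - 1) * t))) := by ring
      _ ≤ 4 * (((n - t).choose m : ℝ) * (n * ((n : ℝ) - m))) :=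
          mul_le_mul_of_nonneg_left hb (by norm_num)
      _ = _ := by ring
  exact_mod_cast h8

theorem goal_N1C : Pool.Agent.Helper49.NF.Goal_N1C := by
  refine ⟨1000 ^ 20, fun n hn m K hm3 hm hK1 hK => ?_⟩
  have hB := main_bound hn hm hK1 hK
  have hK2 : 1 ≤ K ^ 2 := Nat.one_le_pow _ _ hK1
  have hm1 : m + 1 ≤ 2 * m := by omega
  have hm3' : m ^ 3 ≤ m ^ 5 := Nat.pow_le_pow_right (by omega) (by norm_num)
  have hm2' : m ^ 2 ≤ m ^ 5 := Nat.pow_le_pow_right (by omega) (by norm_num)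
  have hm1' : m ≤ m ^ 5 := by
    calc m = m ^ 1 := (pow_one m).symm
      _ ≤ m ^ 5 := Nat.pow_le_pow_right (by omega) (by norm_num)
  have hB3 : 1000 * K ^ 2 * m ^ 3 ≤ n :=
    le_trans (Nat.mul_le_mul_left _ hm3') hB
  have hB2 : 1000 * K ^ 2 * m ^ 2 ≤ n :=
    le_trans (Nat.mul_le_mul_left _ hm2') hB
  have hB1 : 1000 * m ≤ n := by
    calc 1000 * m = 1000 * 1 * m := by ring
      _ ≤ 1000 * K ^ 2 * m ^ 5 := Nat.mul_le_mul (Nat.mul_le_mul_left _ hK2) hm1'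
      _ ≤ n := hB
  have hB22 : 1000 * m ^ 2 ≤ n := by
    calc 1000 * m ^ 2 = 1000 * 1 * m ^ 2 := by ring
      _ ≤ 1000 * K ^ 2 * m ^ 2 := Nat.mul_le_mul (Nat.mul_le_mul_left _ hK2) le_rfl
      _ ≤ n := hB2
  have hKK : K ≤ K ^ 2 := by nlinarith
  have hs1 : (K * (m + 1)) * (m + 1) ≤ K ^ 2 * (4 * m ^ 2) := by
    calc (K * (m + 1)) * (m + 1) ≤ (K ^ 2 * (2 * m)) * (2 * m) :=
          Nat.mul_le_mul (Nat.mul_le_mul hKK hm1) hm1
      _ = K ^ 2 * (4 * m ^ 2) := by ring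
  have hs2 : 250 * ((K * (m + 1)) * (m + 1)) ≤ n := by
    calc 250 * ((K * (m + 1)) * (m + 1)) ≤ 250 * (K ^ 2 * (4 * m ^ 2)) :=
          Nat.mul_le_mul_left _ hs1
      _ = 1000 * K ^ 2 * m ^ 2 := by ring
      _ ≤ n := hB2
  have hspos : 0 < 4 * (K * (m + 1)) ^ 2 := by positivity
  have hdiv : 4 * (K * (m + 1)) ^ 2 * (n / (4 * (K * (m + 1)) ^ 2)) ≤ n :=
    Nat.mul_div_le n _
  refine ⟨?_, ?_, ?_, ?_, ?_⟩
  · rw [Nat.le_div_iff_mul_le hspos]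
    calc m * (4 * (K * (m + 1)) ^ 2) = 4 * K ^ 2 * (m * ((m + 1) * (m + 1))) := by ring
      _ ≤ 4 * K ^ 2 * (m * ((2 * m) * (2 * m))) :=
          Nat.mul_le_mul_left _ (Nat.mul_le_mul_left _ (Nat.mul_le_mul hm1 hm1))
      _ = 16 * K ^ 2 * m ^ 3 := by ring
      _ ≤ 1000 * K ^ 2 * m ^ 3 :=
          Nat.mul_le_mul_right _ (Nat.mul_le_mul_right _ (by norm_num))
      _ ≤ n := hB3
  · exact choose_shift (by omega) (by omega)
  · have h1 : 64 * (K * (m + 1)) ^ 2 * (n / (4 * (K * (m + 1)) ^ 2)) ≤ 16 * n := by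
      calc 64 * (K * (m + 1)) ^ 2 * (n / (4 * (K * (m + 1)) ^ 2))
          = 16 * (4 * (K * (m + 1)) ^ 2 * (n / (4 * (K * (m + 1)) ^ 2))) := by ring
        _ ≤ 16 * n := Nat.mul_le_mul_left _ hdiv
    omega
  · omega
  · omega

end Pool.Agent.Helper41.NF
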